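import Pool.Agent.helper97.TQ6.Defs
import Pool.Agent.helper78.TQ6.Word

set_option autoImplicit false

/-!
# Gluing the colourings of the levels
-/

namespace Pool.Agent.helper97.TQ6

/-- a good colouring composed with an injective map is good -/
theorem Good.perm {p : ℕ → ℕ} {a b : ℕ} {Xl U : Set ℕ} {c : ℕ → ZMod 3} (h : Good p a b Xl U c)
    {s t : ZMod 3} (hs : s ≠ 0) : Good p a b Xl U (fun x => s * c x + t) := by
  have inj : ∀ s t x y : ZMod 3, s ≠ 0 → s * x + t = s * y + t → x = y := by decide
  refine ⟨?_, ?_, ?_⟩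
  · intro x y h1 h2 h3 h4 h5 h6 h7
    exact h.low x y h1 h2 h3 h4 h5 h6 (inj _ _ _ _ hs h7)
  · intro x y h1 h2 h3 h4 h5
    exact h.up x y h1 h2 h3 h4 (inj _ _ _ _ hs h5)
  · intro x y h1 h2 h3 h4 h5 h6 h7
    exact h.cross x y h1 h2 h3 h4 h5 h6 (inj _ _ _ _ hs h7)

/-- the colour with palette `j mod 2` and number `c` -/
def col6 (j : ℕ) (c : ZMod 3) : Fin 6 :=
  ⟨3 * (j % 2) + c.val, by
    have h1 : c.val < 3 := ZMod.val_lt c
    have h2 : j % 2 < 2 := Nat.mod_lt _ (by norm_num)
    omega⟩

theorem col6_par {i j : ℕ} {c d : ZMod 3} (h : col6 i c = col6 j d) : i % 2 = j % 2 := by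
  have h1 : c.val < 3 := ZMod.val_lt c
  have h2 : d.val < 3 := ZMod.val_lt d
  have h3 := congrArg Fin.val h
  simp only [col6] at h3
  omega

theorem col6_eq {i j : ℕ} {c d : ZMod 3} (h : col6 i c = col6 j d) : c = d := by
  have h1 : c.val < 3 := ZMod.val_lt c
  have h2 : d.val < 3 := ZMod.val_lt d
  have h3 := congrArg Fin.val h
  simp only [col6] at h3
  exact ZMod.val_injective 3 (by omega)

/-- the levels recoloured so that consecutive levels of the same parity agree on the roots -/
theorem glue_aux {p : ℕ → ℕ} (σ : ℕ → ℕ) (h2 : ∀ j, σ j + 2 ≤ σ (j + 1))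
    (J : ℕ) (X : ℕ → Set ℕ) (hX : ∀ j ≤ J, ∀ v ∈ X j, σ j ≤ v ∧ v < σ (j + 1) ∧
      (1 ≤ j → σ j + 2 ≤ v))
    (hg : ∀ j < J, ∃ c, Good p (σ j) (σ (j + 1)) (X j)
      (X (j + 1) ∪ {σ (j + 2), σ (j + 2) + 1}) c) (K : ℕ) (hK : K ≤ J) :
    ∃ d : ℕ → ℕ → ZMod 3,
      (∀ x y, x < y → y ≤ x + 2 → d 0 x ≠ d 0 y) ∧
      (∀ j < K, Good p (σ j) (σ (j + 1)) (X j) (X (j + 1) ∪ {σ (j + 2), σ (j + 2) + 1})
        (d (j + 1))) ∧
      (∀ j, j + 1 < K → d (j + 2) (σ (j + 1)) = d j (σ (j + 1)) ∧
        d (j + 2) (σ (j + 1) + 1) = d j (σ (j + 1) + 1)) := by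
  induction K with
  | zero =>
    refine ⟨fun _ x => (x : ZMod 3), ?_, fun j hj => absurd hj (Nat.not_lt_zero _),
      fun j hj => absurd hj (Nat.not_lt_zero _)⟩
    intro x y h1 h2 h3
    have h4 := (ZMod.natCast_eq_natCast_iff' x y 3).1 h3
    omega
  | succ K ih =>
    obtain ⟨d, hd0, hd1, hd2⟩ := ih (by omega)
    obtain ⟨c, hc⟩ := hg K (by omega)
    obtain ⟨c', hc', hm⟩ : ∃ c' : ℕ → ZMod 3, Good p (σ K) (σ (K + 1)) (X K)
        (X (K + 1) ∪ {σ (K + 2), σ (K + 2) + 1}) c' ∧
        (∀ j, j + 1 = K → c' (σ (j + 1)) = d j (σ (j + 1)) ∧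
        c' (σ (j + 1) + 1) = d j (σ (j + 1) + 1)) := by
      rcases K with _ | i
      · exact ⟨c, hc, fun j hj => by omega⟩
      · have e1 : c (σ (i + 1)) ≠ c (σ (i + 1) + 1) := by
          have hs := h2 (i + 1)
          refine hc.low _ _ le_rfl (by omega) (by omega) (by omega) ?_ ?_
          · intro h
            have := (hX (i + 1) (by omega) _ h).2.2 (by omega)
            omega
          · intro h
            have := (hX (i + 1) (by omega) _ h).2.2 (by omega)
            omega
        have e2 : d i (σ (i + 1)) ≠ d i (σ (i + 1) + 1) := by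
          rcases i with _ | i
          · exact hd0 _ _ (by omega) (by omega)
          · exact (hd1 i (by omega)).up _ _ (by omega) (by omega) (Or.inr (Or.inl rfl))
              (Or.inr (Or.inr rfl))
        have key : ∀ a b a' b' : ZMod 3, a ≠ b → a' ≠ b' →
            ∃ s t : ZMod 3, s ≠ 0 ∧ s * a + t = a' ∧ s * b + t = b' := by decide
        obtain ⟨s, t, hs, h3, h4⟩ := key _ _ _ _ e1 e2
        refine ⟨fun x => s * c x + t, hc.perm hs, fun j hj => ?_⟩
        obtain rfl : j = i := by omega
        exact ⟨h3, h4⟩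
    refine ⟨Function.update d (K + 1) c', ?_, ?_, ?_⟩
    · rw [Function.update_of_ne (by omega)]
      exact hd0
    · intro j hj
      rcases Nat.lt_succ_iff_lt_or_eq.1 hj with h | h
      · rw [Function.update_of_ne (by omega)]
        exact hd1 j h
      · rw [h, Function.update_self]
        exact hc'
    · intro j hj
      rcases Nat.lt_succ_iff_lt_or_eq.1 hj with h | h
      · rw [Function.update_of_ne (by omega), Function.update_of_ne (by omega)]
        exact hd2 j h
      · have e : j + 2 = K + 1 := by omega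
        rw [e, Function.update_self, Function.update_of_ne (by omega)]
        exact hm j h

/-- (F) the gluing -/
theorem glue {p : ℕ → ℕ} (hp : Monotone p) (σ : ℕ → ℕ) (h0 : σ 0 = 0)
    (h2 : ∀ j, σ j + 2 ≤ σ (j + 1)) (h3 : ∀ j, σ (j + 1) ≤ p (σ j) ∧ p (σ j) ≤ σ (j + 1) + 1)
    (J : ℕ) (X : ℕ → Set ℕ)
    (hX : ∀ j ≤ J, ∀ v ∈ X j, σ j ≤ v ∧ v < σ (j + 1) ∧ (1 ≤ j → σ j + 2 ≤ v))
    (hc2 : ∀ j < J, ∀ v ∈ X j, ∀ u, p v ≤ u → u ≤ p (v + 1) →
      u ∈ X (j + 1) ∨ u = σ (j + 2) ∨ u = σ (j + 2) + 1)
    (hg : ∀ j < J, ∃ c, Good p (σ j) (σ (j + 1)) (X j)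
      (X (j + 1) ∪ {σ (j + 2), σ (j + 2) + 1}) c) :
    ∃ C : ℕ → Fin 6, ∀ x y, y < σ J → Pool.Agent.helper78.TQ6.Ew p x y → C x ≠ C y := by
  classical
  have hmono : StrictMono σ := strictMono_nat_of_lt_succ (fun j => by have := h2 j; omega)
  have hrow : ∀ v, ∃ j, σ j ≤ v ∧ v < σ (j + 1) := by
    intro v
    have hex : ∃ j, v < σ j := ⟨v + 1, by have := hmono.le_apply (x := v + 1); omega⟩
    refine ⟨Nat.find hex - 1, ?_, ?_⟩
    · by_contra h
      push Not at h
      have h4 : Nat.find hex ≠ 0 := by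
        intro h5
        have h6 := Nat.find_spec hex
        rw [h5, h0] at h6
        omega
      exact Nat.find_min hex (m := Nat.find hex - 1) (by omega) h
    · have h4 : Nat.find hex ≠ 0 := by
        intro h5
        have h6 := Nat.find_spec hex
        rw [h5, h0] at h6
        omega
      have h5 : Nat.find hex - 1 + 1 = Nat.find hex := by omega
      rw [h5]
      exact Nat.find_spec hex
  choose r hr1 hr2 using hrow
  obtain ⟨d, hd0, hd1, hd2⟩ := glue_aux (p := p) σ h2 J X hX hg J le_rfl
  -- the upper colourings are proper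
  have hup : ∀ j ≤ J, ∀ x y, x < y → y ≤ x + 2 → (x ∈ X j ∨ x = σ (j + 1) ∨ x = σ (j + 1) + 1) →
      (y ∈ X j ∨ y = σ (j + 1) ∨ y = σ (j + 1) + 1) → d j x ≠ d j y := by
    intro j hj x y hxy hyx h5 h6
    rcases j with _ | j
    · exact hd0 _ _ hxy hyx
    · exact (hd1 j (by omega)).up x y hxy hyx
        (by rcases h5 with h | h | h
            · exact Or.inl h
            · exact Or.inr (Or.inl h)
            · exact Or.inr (Or.inr h))
        (by rcases h6 with h | h | h
            · exact Or.inl h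
            · exact Or.inr (Or.inl h)
            · exact Or.inr (Or.inr h))
  -- the first two vertices of a row are not switched
  have hroot : ∀ j, j + 1 ≤ J → ∀ y, y ≤ σ (j + 1) + 1 → y ∉ X (j + 1) := by
    intro j hj y hy h
    have := (hX (j + 1) hj y h).2.2 (by omega)
    omega
  refine ⟨fun v => if v ∈ X (r v) then col6 (r v + 1) (d (r v) v) else
    col6 (r v) (d (r v + 1) v), ?_⟩
  intro x y hy hxy heq
  obtain ⟨hlt, hE⟩ := hxy
  have hx1 := hr1 x
  have hx2 := hr2 x
  have hy1 := hr1 y
  have hy2 := hr2 y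
  generalize hi : r x = i at *
  generalize hk : r y = k at *
  have hkJ : k < J := by
    have h : σ k < σ J := lt_of_le_of_lt hy1 hy
    exact hmono.lt_iff_lt.1 h
  have hik : i ≤ k := by
    have h : σ i < σ (k + 1) := by omega
    have := hmono.lt_iff_lt.1 h
    omega
  simp only [hi, hk] at heq
  have hs1 := h2 (i + 1)
  have hs2 := h2 (i + 2)
  rcases hE with hE | ⟨hE1, hE2⟩
  · -- short edge
    have hk1 : k ≤ i + 1 := by
      have h : σ k < σ (i + 2) := by
        have e : i + 1 + 1 = i + 2 := rfl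
        rw [e] at hs1
        omega
      have := hmono.lt_iff_lt.1 h
      omega
    rcases Nat.lt_or_ge i k with h | h
    · -- next row
      obtain rfl : k = i + 1 := by omega
      have hyX : y ∉ X (i + 1) := hroot i (by omega) y (by omega)
      rw [if_neg hyX] at heq
      by_cases hxX : x ∈ X i
      · rw [if_pos hxX] at heq
        have h5 := col6_eq heq
        have h6 : y = σ (i + 1) ∨ y = σ (i + 1) + 1 := by omega
        have h7 : d (i + 1 + 1) y = d i y := by
          have h8 := hd2 i hkJ
          rcases h6 with h | h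
          · rw [h]; exact h8.1
          · rw [h]; exact h8.2
        rw [h7] at h5
        exact hup i (by omega) x y hlt hE (Or.inl hxX) (Or.inr h6) h5
      · rw [if_neg hxX] at heq
        have h5 := col6_par heq
        omega
    · obtain rfl : k = i := by omega
      by_cases hxX : x ∈ X k
      · rw [if_pos hxX] at heq
        by_cases hyX : y ∈ X k
        · rw [if_pos hyX] at heq
          exact hup k (by omega) x y hlt hE (Or.inl hxX) (Or.inl hyX) (col6_eq heq)
        · rw [if_neg hyX] at heq
          have h5 := col6_par heq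
          omega
      · rw [if_neg hxX] at heq
        by_cases hyX : y ∈ X k
        · rw [if_pos hyX] at heq
          have h5 := col6_par heq
          omega
        · rw [if_neg hyX] at heq
          exact (hd1 k hkJ).low x y hx1 hlt hE hy2 hxX hyX (col6_eq heq)
  · -- long edge
    have hpx : σ (i + 1) ≤ p x := (h3 i).1.trans (hp hx1)
    have hpx1 : p (x + 1) ≤ σ (i + 2) + 1 := (hp (by omega)).trans (h3 (i + 1)).2
    have hk1 : i + 1 ≤ k := by
      have h : σ (i + 1) < σ (k + 1) := by omega
      have := hmono.lt_iff_lt.1 h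
      omega
    have hk2 : k ≤ i + 2 := by
      have h : σ k < σ (i + 3) := by
        have e : i + 2 + 1 = i + 3 := rfl
        rw [e] at hs2
        omega
      have := hmono.lt_iff_lt.1 h
      omega
    rcases Nat.lt_or_ge k (i + 2) with h | h
    · obtain rfl : k = i + 1 := by omega
      by_cases hxX : x ∈ X i
      · rw [if_pos hxX] at heq
        have hyX : y ∈ X (i + 1) := by
          rcases hc2 i (by omega) x hxX y hE1 hE2 with h5 | h5 | h5
          · exact h5
          · have e : i + 1 + 1 = i + 2 := rfl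
            rw [e] at hy2
            omega
          · have e : i + 1 + 1 = i + 2 := rfl
            rw [e] at hy2
            omega
        rw [if_pos hyX] at heq
        have h5 := col6_par heq
        omega
      · rw [if_neg hxX] at heq
        by_cases hyX : y ∈ X (i + 1)
        · rw [if_pos hyX] at heq
          exact (hd1 i (by omega)).cross x y hx1 hx2 hxX (Or.inl hyX) hE1 hE2 (col6_eq heq)
        · rw [if_neg hyX] at heq
          have h5 := col6_par heq
          omega
    · obtain rfl : k = i + 2 := by omega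
      have h6 : y = σ (i + 2) ∨ y = σ (i + 2) + 1 := by omega
      have hyX : y ∉ X (i + 2) := hroot (i + 1) (by omega) y (by
        have e : i + 1 + 1 = i + 2 := rfl
        rw [e]; omega)
      rw [if_neg hyX] at heq
      by_cases hxX : x ∈ X i
      · rw [if_pos hxX] at heq
        have h5 := col6_par heq
        omega
      · rw [if_neg hxX] at heq
        have h5 := col6_eq heq
        have h7 : d (i + 2 + 1) y = d (i + 1) y := by
          have h8 := hd2 (i + 1) hkJ
          rcases h6 with h | h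
          · rw [h]; exact h8.1
          · rw [h]; exact h8.2
        rw [h7] at h5
        refine (hd1 i (by omega)).cross x y hx1 hx2 hxX (Or.inr ?_) hE1 hE2 h5
        rcases h6 with h | h
        · exact Or.inl h
        · exact Or.inr h

end Pool.Agent.helper97.TQ6
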